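import Mathlib
import Pool.Agent.Helper69.BQ.St.A

/-!
# Project BQ, piece M11 (first part): `eq_of_co`
-/

namespace Pool.Agent.Helper69.BQ.Cert
end Pool.Agent.Helper69.BQ.Cert

namespace Pool.Agent.Helper57.BQ

open Pool.Agent.Helper69.BQ
open Cert

/-- M11. A rational number supported on the list is determined by its coordinates up to squares
(from `eq_mul_sq`). -/
lemma eq_of_co {ps : List ℕ} (hps : ∀ p ∈ ps, p.Prime) {a b : ℚ} (ha : SuppOn ps a)
    (hb : SuppOn ps b) (h : ∀ i < ps.length + 2, co ps a i = co ps b i) :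
    ∃ q : ℚ, q ≠ 0 ∧ a = b * q ^ 2 := by
  refine eq_mul_sq ha.1 hb.1 ?_ ?_
  · have h0 := h 0 (by omega)
    simp only [co] at h0
    by_cases h1 : a < 0 <;> by_cases h2 : b < 0 <;> simp [h1, h2] at h0 ⊢
  · intro p hp
    by_cases hp2 : p = 2
    · subst hp2
      exact h 1 (by omega)
    · by_cases hm : p ∈ ps
      · obtain ⟨i, hi, rfl⟩ := List.getElem_of_mem hm
        have h1 := h (i + 2) (by omega)
        simp only [co] at h1
        rwa [List.getD_eq_getElem _ _ hi] at h1
      · rw [ha.2 p hp hp2 hm, hb.2 p hp hp2 hm]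

end Pool.Agent.Helper57.BQ
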