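import Mathlib
import Pool.Agent.Helper69.BQ.St.M2
import Pool.Agent.Helper69.BQ.St.M

/-!
# Project BQ, piece M11 (second part): `valM_xor`
-/

namespace Pool.Agent.Helper57.BQ

open Pool.Agent.Helper69.BQ
open Cert

lemma bitz_xor (a b i : ℕ) : bitz (a ^^^ b) i = bitz a i + bitz b i := by
  unfold bitz
  rw [Nat.testBit_xor]
  cases a.testBit i <;> cases b.testBit i <;> simp <;> decide

/-- M13. `valM` turns `xor` into products, up to squares. -/
lemma valM_xor {ps : List ℕ} (hps : ∀ p ∈ ps, p.Prime ∧ p ≠ 2) (hnd : ps.Nodup) (a b : ℕ) :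
    ∃ q : ℚ, q ≠ 0 ∧ ((valM ps (a ^^^ b) : ℤ) : ℚ) = valM ps a * valM ps b * q ^ 2 := by
  have hps' : ∀ p ∈ ps, p.Prime := fun p hp => (hps p hp).1
  have sa := supp_valM hps a
  have sb := supp_valM hps b
  refine eq_of_co hps' (supp_valM hps (a ^^^ b)) ⟨mul_ne_zero sa.1 sb.1, ?_⟩ ?_
  · intro p hp hp2 hm
    rw [vv_mul hp sa.1 sb.1, sa.2 p hp hp2 hm, sb.2 p hp hp2 hm, add_zero]
  · intro i hi
    rw [co_mul hps' sa.1 sb.1 i hi, co_valM hps hnd _ i hi, co_valM hps hnd _ i hi,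
      co_valM hps hnd _ i hi, bitz_xor]

end Pool.Agent.Helper57.BQ
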